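import Pool.Agent.PFC.StmtsB2
import Pool.Agent.PFC.StmtsB3

/-!
# Squad PFC, block B2: row HRD
-/

set_option autoImplicit false

noncomputable section

namespace Pool.Agent.PFC.B2.H37

open MvPolynomial Pool.Agent.PFC

section pre

variable {k I E Λ : Type} [CommRing k] [Fintype I] [Group E] [Ring Λ] [Algebra k Λ]
  {q : I → ℕ} {p : I → I} {c : I → k} {η : I → E →* kˣ}

theorem pre_C (P : B3.Pre k I E Λ q p c η) (a : k) : P.j (C a) = algebraMap k Λ a := by
  rw [← MvPolynomial.algebraMap_eq, AlgHom.commutes]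

/-- a linear map on the presented algebra is determined by its values on the products -/
theorem pre_ext {M : Type} [AddCommGroup M] [Module k M] (P : B3.Pre k I E Λ q p c η)
    (f g : Λ →ₗ[k] M) (h : ∀ (F : MvPolynomial I k) e, f (P.j F * P.ε e) = g (P.j F * P.ε e)) :
    f = g := by
  apply P.b.ext
  rintro ⟨α, e⟩
  rw [P.hb]
  exact h _ _

/-- the twist of the characters -/
def twε (P : B3.Pre k I E Λ q p c η) (χ : E →* kˣ) : E →* Λ where
  toFun e := (χ e : k) • P.ε e
  map_one' := by rw [map_one, map_one, Units.val_one, one_smul]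
  map_mul' a b := by
    rw [map_mul, map_mul, Units.val_mul, smul_mul_smul_comm]

theorem tw_ex (P : B3.Pre k I E Λ q p c η) (χ : E →* kˣ) :
    ∃ s : Λ →ₐ[k] Λ, (∀ f, s (P.j f) = P.j f) ∧ ∀ e, s (P.ε e) = (χ e : k) • P.ε e := by
  obtain ⟨h, h1, h2⟩ := P.up Λ P.j.toRingHom (twε P χ) (by
    intro i
    show P.j (X i) ^ q i = P.j (C (c i)) * P.j (X (p i))
    rw [P.rel, pre_C, Algebra.smul_def]) (by
    intro e i
    show ((χ e : k) • P.ε e) * P.j (X i) =
      P.j (C (η i e : k)) * P.j (X i) * ((χ e : k) • P.ε e)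
    rw [smul_mul_assoc, P.cm, pre_C, mul_smul_comm, Algebra.smul_def (η i e : k), mul_assoc]) (by
    intro e a
    show ((χ e : k) • P.ε e) * P.j (C a) = P.j (C a) * ((χ e : k) • P.ε e)
    rw [pre_C, Algebra.commutes])
  refine ⟨{ toRingHom := h, commutes' := ?_ }, h1, h2⟩
  intro r
  show h (algebraMap k Λ r) = _
  rw [← pre_C P, h1]
  rfl

theorem tw_eqv (P : B3.Pre k I E Λ q p c η) (χ : E →* kˣ) :
    ∃ s : Λ ≃ₐ[k] Λ, (∀ f, s (P.j f) = P.j f) ∧ ∀ e, s (P.ε e) = (χ e : k) • P.ε e := by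
  obtain ⟨s, s1, s2⟩ := tw_ex P χ
  obtain ⟨s', s1', s2'⟩ := tw_ex P χ⁻¹
  have e1 : s.comp s' = AlgHom.id k Λ := by
    have h := pre_ext P (s.comp s').toLinearMap (AlgHom.id k Λ).toLinearMap (by
      intro F e
      show s (s' (P.j F * P.ε e)) = P.j F * P.ε e
      rw [map_mul, s1', s2', map_mul, s1, map_smul, s2, smul_smul, MonoidHom.inv_apply,
        Units.inv_mul, one_smul])
    exact AlgHom.toLinearMap_injective h
  have e2 : s'.comp s = AlgHom.id k Λ := by
    have h := pre_ext P (s'.comp s).toLinearMap (AlgHom.id k Λ).toLinearMap (by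
      intro F e
      show s' (s (P.j F * P.ε e)) = P.j F * P.ε e
      rw [map_mul, s1, s2, map_mul, s1', map_smul, s2', smul_smul, MonoidHom.inv_apply,
        Units.mul_inv, one_smul])
    exact AlgHom.toLinearMap_injective h
  exact ⟨AlgEquiv.ofAlgHom s s' e1 e2, s1, s2⟩

end pre

theorem hrd (hS : B3.SkeStmt) (hC : B3.CycStmt) : HrdStmt := by
  classical
  intro F I E Λ _ _ _ _ _ _ _ q p i0 η P hq hη
  have hcl : ∀ x : I, ¬ p.SameCycle i0 (p x) ↔ ¬ p.SameCycle i0 x := fun x =>
    not_congr Equiv.Perm.sameCycle_apply_right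
  let I' : Type := {i : I // ¬ p.SameCycle i0 i}
  let v : I' → I := Subtype.val
  let p' : Equiv.Perm I' := p.subtypePerm hcl
  have hvp : ∀ i, v (p' i) = p (v i) := fun i => rfl
  have hv0 : ∀ i : I', v i ≠ i0 := fun i h => i.2 (by
    show p.SameCycle i0 (v i)
    rw [h])
  obtain ⟨H, hH1, hH2, ⟨P'⟩⟩ := hS (PowerSeries F) I' E (fun i => q (v i)) p' (fun _ => PowerSeries.X)
    (fun i => η (v i)) (fun i => hq _) (fun i e => hη (v i) e)
  set x : Λ := P.j (X (p i0)) with hx
  -- the map `j`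
  obtain ⟨h, h1, h2⟩ := P'.up Λ (P.j.toRingHom.comp (rename v).toRingHom) P.ε (by
    intro i
    show P.j (rename v (X i)) ^ q (v i) = P.j (rename v (C PowerSeries.X)) * P.j (rename v (X (p' i)))
    rw [rename_X, rename_X, rename_C, P.rel, pre_C, hvp, B3.cc, if_neg (hv0 i),
      Algebra.smul_def]) (by
    intro e i
    show P.ε e * P.j (rename v (X i)) =
      P.j (rename v (C (η (v i) e : PowerSeries F))) * P.j (rename v (X i)) * P.ε e
    rw [rename_X, rename_C, P.cm, pre_C, Algebra.smul_def, mul_assoc]) (by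
    intro e a
    show P.ε e * P.j (rename v (C a)) = P.j (rename v (C a)) * P.ε e
    rw [rename_C, pre_C, Algebra.commutes])
  have hj : ∀ f, h (P'.j f) = P.j (rename v f) := h1
  let j : H →ₐ[PowerSeries F] Λ :=
    { toRingHom := h
      commutes' := by
        intro r
        show h (algebraMap (PowerSeries F) H r) = _
        rw [← pre_C P', hj, rename_C, pre_C] }
  have j1 : ∀ f, j (P'.j f) = P.j (rename v f) := h1
  have j2 : ∀ e, j (P'.ε e) = P.ε e := h2
  -- the map `s`
  obtain ⟨s, s1, s2⟩ := tw_eqv P' (η (p i0))⁻¹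
  have hcm : ∀ a, x * j a = j (s a) * x := by
    have e := pre_ext P' (((LinearMap.mulLeft (PowerSeries F) x)).comp j.toLinearMap)
      ((LinearMap.mulRight (PowerSeries F) x).comp (j.toLinearMap.comp s.toLinearMap)) (by
      intro f e
      show x * j (P'.j f * P'.ε e) = j (s (P'.j f * P'.ε e)) * x
      rw [map_mul, map_mul, s1, s2, map_mul, map_smul, j1, j2, mul_smul_comm, smul_mul_assoc,
        mul_assoc (P.j (rename v f)), hx, P.cm, mul_smul_comm, smul_smul, MonoidHom.inv_apply,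
        Units.inv_mul, one_smul, ← mul_assoc, ← mul_assoc, ← map_mul, ← map_mul, mul_comm])
    intro a
    exact LinearMap.congr_fun e a
  obtain ⟨c1, c2⟩ := hC (PowerSeries F) I Λ q p PowerSeries.X i0 (fun i => P.j (X i)) hq P.rel
  set Q : ℕ := ∏ i ∈ Finset.univ.filter (fun i => p.SameCycle i0 i), q i with hQ
  have hQ1 : 1 ≤ Q := Nat.one_le_iff_ne_zero.2 (Finset.prod_ne_zero_iff.2 fun i _ => by
    have := hq i
    omega)
  refine ⟨H, hH1, hH2, I', inferInstance, v, p', P', j, s, hcm, ?_⟩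
  -- the span
  let Sp : Submodule (PowerSeries F) Λ :=
    { carrier := {γ | ∃ h : ℕ → H, γ = ∑ i ∈ Finset.range Q, j (h i) * x ^ i}
      zero_mem' := ⟨fun _ => 0, by simp⟩
      add_mem' := by
        rintro a b ⟨f, hf⟩ ⟨g, hg⟩
        refine ⟨fun i => f i + g i, ?_⟩
        rw [hf, hg, ← Finset.sum_add_distrib]
        exact Finset.sum_congr rfl fun i _ => by rw [map_add, add_mul]
      smul_mem' := by
        rintro r a ⟨f, hf⟩
        refine ⟨fun i => r • f i, ?_⟩
        rw [hf, Finset.smul_sum]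
        exact Finset.sum_congr rfl fun i _ => by rw [map_smul, smul_mul_assoc] }
  have Sp_j : ∀ a γ, γ ∈ Sp → j a * γ ∈ Sp := by
    rintro a _ ⟨f, rfl⟩
    refine ⟨fun i => a * f i, ?_⟩
    rw [Finset.mul_sum]
    exact Finset.sum_congr rfl fun i _ => by rw [map_mul, mul_assoc]
  have Sp_x : ∀ γ, γ ∈ Sp → x * γ ∈ Sp := by
    rintro _ ⟨f, rfl⟩
    refine ⟨fun i => if i = 0 then 0 else s (f (i - 1)), ?_⟩
    obtain ⟨Q', hQ'⟩ : ∃ Q', Q = Q' + 1 := ⟨Q - 1, by omega⟩
    have c3 : x ^ (Q' + 1) = 0 := hQ' ▸ c2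
    rw [hQ', Finset.sum_range_succ, Finset.sum_range_succ', mul_add, Finset.mul_sum]
    have e1 : x * (j (f Q') * x ^ Q') = 0 := by
      rw [← mul_assoc, hcm, mul_assoc, ← pow_succ', c3, mul_zero]
    rw [e1]
    beta_reduce
    rw [if_pos rfl, map_zero, zero_mul]
    congr 1
    refine Finset.sum_congr rfl fun i _ => ?_
    rw [if_neg (Nat.succ_ne_zero i), Nat.add_sub_cancel, ← mul_assoc, hcm, mul_assoc, ← pow_succ']
  have Sp_xm : ∀ m γ, γ ∈ Sp → x ^ m * γ ∈ Sp := by
    intro m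
    induction m with
    | zero => intro γ hγ; rwa [pow_zero, one_mul]
    | succ m ih => intro γ hγ; rw [pow_succ, mul_assoc]; exact ih _ (Sp_x _ hγ)
  let M : Submodule (PowerSeries F) Λ :=
    { carrier := {γ | ∃ n : ℕ, (PowerSeries.X : PowerSeries F) ^ n • γ ∈ Sp}
      zero_mem' := ⟨0, by rw [smul_zero]; exact Sp.zero_mem⟩
      add_mem' := by
        rintro a b ⟨n, hn⟩ ⟨m, hm⟩
        refine ⟨n + m, ?_⟩
        rw [smul_add]
        refine Sp.add_mem ?_ ?_
        · rw [add_comm, pow_add, mul_smul]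
          exact Sp.smul_mem _ hn
        · rw [pow_add, mul_smul]
          exact Sp.smul_mem _ hm
      smul_mem' := by
        rintro r a ⟨n, hn⟩
        refine ⟨n, ?_⟩
        rw [smul_comm]
        exact Sp.smul_mem _ hn }
  have M_X : ∀ i γ, γ ∈ M → P.j (X i) * γ ∈ M := by
    rintro i γ ⟨n, hn⟩
    by_cases hi : p.SameCycle i0 i
    · obtain ⟨a, m, -, hm⟩ := c1 i hi
      refine ⟨a + n, ?_⟩
      have e : (PowerSeries.X : PowerSeries F) ^ (a + n) • (P.j (X i) * γ) =
          x ^ m * ((PowerSeries.X : PowerSeries F) ^ n • γ) := by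
        have hm' : x ^ m = (PowerSeries.X : PowerSeries F) ^ a • P.j (X i) := hm
        rw [hm', pow_add, smul_mul_smul_comm]
      rw [e]
      exact Sp_xm m _ hn
    · refine ⟨n, ?_⟩
      have e : P.j (X i) = j (P'.j (X ⟨i, hi⟩)) := by
        rw [j1, rename_X]
      rw [← mul_smul_comm, e]
      exact Sp_j _ _ hn
  have M_f : ∀ (f : MvPolynomial I (PowerSeries F)) γ, γ ∈ M → P.j f * γ ∈ M := by
    intro f
    induction f using MvPolynomial.induction_on with
    | C a =>
      intro γ hγ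
      rw [pre_C, ← Algebra.smul_def]
      exact M.smul_mem _ hγ
    | add f g hf hg =>
      intro γ hγ
      rw [map_add, add_mul]
      exact M.add_mem (hf γ hγ) (hg γ hγ)
    | mul_X f i hf =>
      intro γ hγ
      rw [map_mul, mul_assoc]
      exact hf _ (M_X i γ hγ)
  have M_ε : ∀ e, P.ε e ∈ M := by
    intro e
    refine ⟨0, fun i => if i = 0 then P'.ε e else 0, ?_⟩
    rw [pow_zero, one_smul, Finset.sum_eq_single 0]
    · beta_reduce
      rw [if_pos rfl, pow_zero, mul_one, j2]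
    · intro i _ hi
      beta_reduce
      rw [if_neg hi, map_zero, zero_mul]
    · intro h0
      exact absurd (Finset.mem_range.2 (by omega)) h0
  intro γ
  have hγ : γ ∈ M := by
    have : γ ∈ Submodule.span (PowerSeries F) (Set.range P.b) := by
      rw [P.b.span_eq]
      trivial
    refine (Submodule.span_le.2 ?_) this
    rintro _ ⟨⟨α, e⟩, rfl⟩
    rw [P.hb]
    exact M_f _ _ (M_ε e)
  exact hγ

end Pool.Agent.PFC.B2.H37
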