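import Pool.Agent.PFC.StmtsB3

/-!
# Squad PFC, block B3: row TOP
-/

set_option autoImplicit false

open scoped BigOperators

noncomputable section

namespace Pool.Agent.PFC.B3.H37

open MvPolynomial

variable {k I : Type} [CommRing k]

theorem mon_mem {d : ℕ} (m : I →₀ ℕ) (h : m.degree < d) :
    (monomial m 1 : MvPolynomial I k) ∈ Lt k I d :=
  Submodule.subset_span ⟨m, h, rfl⟩

theorem Lt_mul {a b : ℕ} {P Q : MvPolynomial I k} (hP : P ∈ Lt k I a) (hQ : Q ∈ Lt k I b) :
    P * Q ∈ Lt k I (a + b) := by
  have h : Lt k I a * Lt k I b ≤ Lt k I (a + b) := by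
    rw [Lt, Lt, Submodule.span_mul_span, Submodule.span_le]
    rintro _ ⟨_, ⟨m, hm, rfl⟩, _, ⟨n, hn, rfl⟩, rfl⟩
    show monomial m (1 : k) * monomial n 1 ∈ Lt k I (a + b)
    rw [monomial_mul, one_mul]
    apply mon_mem
    rw [map_add]
    omega
  exact h (Submodule.mul_mem_mul hP hQ)

theorem mon_mul {b : ℕ} (m : I →₀ ℕ) {Q : MvPolynomial I k} (hQ : Q ∈ Lt k I b) :
    monomial m 1 * Q ∈ Lt k I (m.degree + b) := by
  induction hQ using Submodule.span_induction with
  | mem x hx =>
    obtain ⟨n, hn, rfl⟩ := hx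
    rw [monomial_mul, one_mul]
    apply mon_mem
    rw [map_add]
    omega
  | zero => rw [mul_zero]; exact Submodule.zero_mem _
  | add x y _ _ hx hy => rw [mul_add]; exact Submodule.add_mem _ hx hy
  | smul c x _ hx => rw [mul_smul_comm]; exact Submodule.smul_mem _ _ hx

/-- the leading form of `P` is the monomial `m` -/
def Ld (m : I →₀ ℕ) (P : MvPolynomial I k) : Prop := P - monomial m 1 ∈ Lt k I m.degree

theorem Ld_mul {m n : I →₀ ℕ} {P Q : MvPolynomial I k} (hP : Ld m P) (hQ : Ld n Q) :
    Ld (m + n) (P * Q) := by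
  have e : P * Q - monomial (m + n) 1 = (P - monomial m 1) * (Q - monomial n 1) +
      monomial m 1 * (Q - monomial n 1) + monomial n 1 * (P - monomial m 1) := by
    have : (monomial (m + n) 1 : MvPolynomial I k) = monomial m 1 * monomial n 1 := by
      rw [monomial_mul, one_mul]
    rw [this]
    ring
  unfold Ld
  rw [e, map_add]
  refine Submodule.add_mem _ (Submodule.add_mem _ (Lt_mul hP hQ) (mon_mul m hQ)) ?_
  have := mon_mul n hP
  rwa [add_comm] at this

theorem Ld_one : Ld (0 : I →₀ ℕ) (1 : MvPolynomial I k) := by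
  unfold Ld
  rw [show (monomial (0 : I →₀ ℕ) (1 : k)) = (1 : MvPolynomial I k) from rfl, sub_self]
  exact Submodule.zero_mem _

theorem Ld_pow {m : I →₀ ℕ} {P : MvPolynomial I k} (hP : Ld m P) (j : ℕ) :
    Ld (j • m) (P ^ j) := by
  induction j with
  | zero => rw [zero_smul, pow_zero]; exact Ld_one
  | succ j ih => rw [add_smul, one_smul, pow_succ]; exact Ld_mul ih hP

theorem Ld_prod (s : Finset I) (m : I → I →₀ ℕ) (P : I → MvPolynomial I k)
    (h : ∀ i ∈ s, Ld (m i) (P i)) : Ld (∑ i ∈ s, m i) (∏ i ∈ s, P i) := by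
  classical
  induction s using Finset.induction_on with
  | empty => rw [Finset.sum_empty, Finset.prod_empty]; exact Ld_one
  | insert a s ha ih =>
    rw [Finset.sum_insert ha, Finset.prod_insert ha]
    exact Ld_mul (h a (Finset.mem_insert_self _ _))
      (ih fun i hi => h i (Finset.mem_insert_of_mem hi))

theorem top : TopStmt := by
  intro k I _ _ q f hq hf γ
  have h := Ld_prod (k := k) Finset.univ
    (fun i => (γ i / q i) • Finsupp.single i (q i) + Finsupp.single i (γ i % q i))
    (fun i => (X i ^ q i - f i) ^ (γ i / q i) * X i ^ (γ i % q i)) (by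
      intro i _
      refine Ld_mul (Ld_pow ?_ _) ?_
      · unfold Ld
        rw [X_pow_eq_monomial, sub_sub_cancel_left]
        apply Submodule.neg_mem
        rw [Finsupp.degree_single]
        exact hf i
      · unfold Ld
        rw [X_pow_eq_monomial, sub_self]
        exact Submodule.zero_mem _)
  have e : (∑ i, ((γ i / q i) • Finsupp.single i (q i) + Finsupp.single i (γ i % q i))) = γ := by
    classical
    ext j
    rw [Finsupp.finsetSum_apply, Finset.sum_eq_single j]
    · simp only [Finsupp.add_apply, Finsupp.smul_apply, Finsupp.single_eq_same, smul_eq_mul]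
      exact Nat.div_add_mod' _ _
    · intro i _ hij
      simp [hij]
    · intro hj
      exact absurd (Finset.mem_univ j) hj
  rw [e] at h
  exact h

end Pool.Agent.PFC.B3.H37
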