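import Pool.Agent.PFC.StmtsB2

/-!
# Squad PFC, block B2: rows XIR, CRG
-/

set_option autoImplicit false

noncomputable section

namespace Pool.Agent.PFC.B2.H37

open Pool.Agent.PFC.B1 Pool.Agent.PFC.B2

section

variable {R A L M : Type} [CommRing R] [Ring A] [Algebra R A] [CommRing L] [Algebra R L]
  [AddCommGroup M] [Module L M]

theorem rp_smul (σ : Rp R A L M) (r : R) (a : A) (x : M) :
    σ.ρ (r • a) x = algebraMap R L r • σ.ρ a x := by
  rw [Algebra.smul_def, map_mul, Module.End.mul_apply, σ.sc]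

end

theorem X_ne {F L : Type} [Field F] [Field L] [Algebra (PowerSeries F) L]
    [IsFractionRing (PowerSeries F) L] (n : ℕ) :
    algebraMap (PowerSeries F) L ((PowerSeries.X : PowerSeries F) ^ n) ≠ 0 := by
  intro h
  have h2 := (map_eq_zero_iff _ (IsFractionRing.injective (PowerSeries F) L)).1 h
  exact pow_ne_zero n PowerSeries.X_ne_zero h2

theorem xir : XirStmt := by
  intro F Γ H L S _ _ _ _ _ _ _ _ _ _ nk σ hσ
  have hst : Stb σ (LinearMap.range (σ.ρ nk.x)) := by
    rintro a _ ⟨s, rfl⟩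
    obtain ⟨n, h, hh⟩ := nk.gen a
    have e : (PowerSeries.X : PowerSeries F) ^ n • (a * nk.x) =
        nk.x * ∑ i ∈ Finset.range nk.Q, nk.j (nk.s.symm (h i)) * nk.x ^ i := by
      rw [← smul_mul_assoc, hh, Finset.sum_mul, Finset.mul_sum]
      refine Finset.sum_congr rfl fun i _ => ?_
      have hc := nk.cm (nk.s.symm (h i))
      rw [AlgEquiv.apply_symm_apply] at hc
      rw [← mul_assoc, hc, mul_assoc, mul_assoc, ← pow_succ, ← pow_succ']
    have e2 := rp_smul σ ((PowerSeries.X : PowerSeries F) ^ n) (a * nk.x) s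
    rw [e, map_mul, Module.End.mul_apply, map_mul, Module.End.mul_apply] at e2
    have e3 : σ.ρ a (σ.ρ nk.x s) =
        (algebraMap (PowerSeries F) L ((PowerSeries.X : PowerSeries F) ^ n))⁻¹ •
          σ.ρ nk.x (σ.ρ (∑ i ∈ Finset.range nk.Q, nk.j (nk.s.symm (h i)) * nk.x ^ i) s) := by
      rw [e2, inv_smul_smul₀ (X_ne n)]
    rw [e3]
    exact Submodule.smul_mem _ _ ⟨_, rfl⟩
  rcases hσ.2 _ hst with h | h
  · intro s
    exact (LinearMap.range_eq_bot.1 h) ▸ rfl
  · exfalso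
    have hsur : Function.Surjective (σ.ρ nk.x) := LinearMap.range_eq_top.1 h
    have hpow : ∀ n : ℕ, Function.Surjective (σ.ρ (nk.x ^ n)) := by
      intro n
      induction n with
      | zero =>
        rw [pow_zero, map_one]
        exact fun y => ⟨y, rfl⟩
      | succ n ih =>
        rw [pow_succ, map_mul]
        exact ih.comp hsur
    have h0 := hpow nk.Q
    rw [nk.xQ, map_zero] at h0
    have := hσ.1
    obtain ⟨y, hy⟩ := exists_ne (0 : S)
    obtain ⟨z, hz⟩ := h0 y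
    exact hy hz.symm

theorem prj {R A L T : Type} [CommRing R] [Ring A] [Algebra R A] [Field L] [Algebra R L]
    [AddCommGroup T] [Module L T] (τ : Rp R A L T) (U U' : Submodule L T) (hU : Stb τ U)
    (hU' : Stb τ U') (hc : IsCompl U U') :
    ∃ p : T →ₗ[L] T, IsHom τ τ p ∧ (∀ t, p t ∈ U) ∧ ∀ u ∈ U, p u = u := by
  have key : ∀ t : T, ∃ u ∈ U, t - u ∈ U' := by
    intro t
    have ht : t ∈ U ⊔ U' := by rw [hc.sup_eq_top]; trivial
    obtain ⟨u, hu, v, hv, rfl⟩ := Submodule.mem_sup.1 ht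
    exact ⟨u, hu, by rwa [add_sub_cancel_left]⟩
  have uni : ∀ t u v : T, u ∈ U → t - u ∈ U' → v ∈ U → t - v ∈ U' → u = v := by
    intro t u v hu hu' hv hv'
    have h1 : u - v ∈ U := U.sub_mem hu hv
    have h2 : u - v ∈ U' := by
      have := U'.sub_mem hv' hu'
      rwa [sub_sub_sub_cancel_left] at this
    have h3 : u - v ∈ U ⊓ U' := ⟨h1, h2⟩
    rw [hc.inf_eq_bot, Submodule.mem_bot] at h3
    exact sub_eq_zero.1 h3
  choose f hf hf' using key
  refine ⟨{ toFun := f, map_add' := ?_, map_smul' := ?_ }, ?_, hf, ?_⟩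
  · intro x y
    refine uni (x + y) _ _ (hf _) (hf' _) (U.add_mem (hf x) (hf y)) ?_
    rw [add_sub_add_comm]
    exact U'.add_mem (hf' x) (hf' y)
  · intro c x
    refine uni (c • x) _ _ (hf _) (hf' _) (U.smul_mem c (hf x)) ?_
    rw [RingHom.id_apply, ← smul_sub]
    exact U'.smul_mem c (hf' x)
  · intro a x
    refine uni (τ.ρ a x) _ _ (hf _) (hf' _) (hU a _ (hf x)) ?_
    show τ.ρ a x - τ.ρ a (f x) ∈ U'
    rw [← map_sub]
    exact hU' a _ (hf' x)
  · intro u hu
    refine uni u _ _ (hf _) (hf' _) hu ?_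
    rw [sub_self]
    exact U'.zero_mem

theorem crg : CrgStmt := by
  constructor
  · intro F Γ H L T _ _ _ _ _ _ _ _ _ _ _ nk τ U hU
    obtain ⟨U', hU', hc⟩ := nk.cr L T τ U hU
    exact prj τ U U' hU hU' hc
  · intro F Γ H L T _ _ _ _ _ _ _ _ _ _ _ nk τ hx U hU
    obtain ⟨U', hU', hc⟩ := nk.cr L T (τ.res nk.j) U (fun a w hw => hU (nk.j a) w hw)
    obtain ⟨p, hp, hp1, hp2⟩ := prj (τ.res nk.j) U U' (fun a w hw => hU (nk.j a) w hw) hU' hc
    refine ⟨p, ?_, hp1, hp2⟩
    have hx0 : τ.ρ nk.x = 0 := LinearMap.ext hx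
    intro a y
    obtain ⟨n, h, hh⟩ := nk.gen a
    have hQ := nk.hQ
    have key : ∀ z : T, algebraMap (PowerSeries F) L ((PowerSeries.X : PowerSeries F) ^ n) •
        τ.ρ a z = τ.ρ (nk.j (h 0)) z := by
      intro z
      rw [← rp_smul, hh, map_sum, LinearMap.sum_apply, Finset.sum_eq_single 0]
      · rw [pow_zero, mul_one]
      · intro i _ hi
        obtain ⟨k, rfl⟩ := Nat.exists_eq_succ_of_ne_zero hi
        rw [pow_succ, ← mul_assoc, map_mul, hx0, mul_zero]
        rfl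
      · intro h0
        exact absurd (Finset.mem_range.2 (by omega)) h0
    have e1 := hp (h 0) y
    have e2 : p (τ.ρ (nk.j (h 0)) y) = τ.ρ (nk.j (h 0)) (p y) := e1
    rw [← key, ← key, map_smul] at e2
    exact smul_right_injective T (X_ne (F := F) (L := L) n) e2

end Pool.Agent.PFC.B2.H37
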